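import Pool.Agent.H9.CA.Tool

/-!
# DT: homogeneity

If every condition belongs to a generic filter whose extension is `B'`, then `B` contains the sets
which are definable over `B'` with parameters from `B`.
-/

set_option linter.unusedVariables false

open Ordinal Order Set
open scoped ZFSet

namespace CAA

open SF

/-- the renaming `(x, u, c, r, v) ↦ (c, r, x, v)` of the variables `y, x, u, c, r, v` -/
def dtr : ℕ → ℕ
  | 0 => 3
  | 1 => 4
  | 2 => 1
  | i + 3 => i + 5

theorem pf_DT (hDS : T_DS) : T_DT := by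
  intro B B' c r kB hcount hBc hBr hpo hgen R hR u v hu hv
  -- the relation without the variable for the generic filter
  obtain ⟨O, hO, hDS2⟩ := hDS (fun M w => R M (fun i => w (i + 1))) (hR.rn fun i => i + 1)
  have hs : Dfb ZFm (fun M w => ∀ y ∈ w 2, y ∈ O M (cons (w 2) (cons (w 3) (cons (w 0)
      fun i => w (i + 4))))) := by
    refine (Dfb.ball (R := fun M w => w 0 ∈ O M (fun i => w (dtr i))) ktr_zfm (Tm.var 2)
      (Dfb.mem (Tm.var 0) (hO.rn dtr))).congr fun M k w hw => ?_
    have e : ∀ y : V, (fun i => cons y w (dtr i)) = cons (w 2) (cons (w 3) (cons (w 0)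
        fun i => w (i + 4))) := by
      intro y
      funext i
      match i with
      | 0 => rfl
      | 1 => rfl
      | 2 => rfl
      | i + 3 => rfl
    refine forall_congr' fun y => imp_congr_right fun hy => ?_
    rw [← e y]
    exact Iff.rfl
  have hsep := (Tm.sep hs (Tm.var 0)).1 B kB (cons u (cons c (cons r v)))
    (((hv.cons hBr).cons hBc).cons hu)
  have key : (u.sep fun x => R B' (cons x v)) =
      ((fun (_ : V → Prop) (w : ℕ → V) => w 0) B (cons u (cons c (cons r v)))).sep fun x =>
        (fun (M : V → Prop) (w : ℕ → V) => ∀ y ∈ w 2, y ∈ O M (cons (w 2) (cons (w 3) (cons (w 0)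
          fun i => w (i + 4))))) B (cons x (cons u (cons c (cons r v)))) := by
    ext x
    simp only [ZFSet.mem_sep]
    refine and_congr_right fun hx => ?_
    have hBx : B x := kB.trans _ hu x hx
    obtain ⟨hreg, hfo, hfo2⟩ := hDS2 B c r (cons x v) kB hBc hBr hpo (hv.cons hBx)
    have e1 : (cons c (cons r (cons x v))) = cons ((cons x (cons u (cons c (cons r v)))) 2)
        (cons ((cons x (cons u (cons c (cons r v)))) 3)
        (cons ((cons x (cons u (cons c (cons r v)))) 0)
          fun i => (cons x (cons u (cons c (cons r v)))) (i + 4))) := rfl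
    show R B' (cons x v) ↔ ∀ y ∈ c, y ∈ O B (cons c (cons r (cons x v)))
    have hRG : ∀ g, (∀ y, B' y ↔ Ext B g y) → (R (Ext B g) (fun i => cons g (cons x v) (i + 1)) ↔
        R B' (cons x v)) := by
      intro g hg
      have hE : B' = Ext B g := by
        funext y
        exact propext (hg y)
      rw [hE]
      exact Iff.rfl
    constructor
    · intro hRx p hp
      refine hreg.2.2 p hp fun q hq => ?_
      have hqc : q ∈ c := by
        obtain ⟨a, ha, b, hb, hab⟩ := hpo.sub _ hq
        obtain ⟨rfl, rfl⟩ := ZFSet.pair_inj.1 hab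
        exact ha
      obtain ⟨g, hg, hqg, hgB⟩ := hgen q hqc
      obtain ⟨p', hp'g, hp'O⟩ := (hfo g hg).1 ((hRG g hgB).2 hRx)
      obtain ⟨s, hsg, hsp', hsq⟩ := hg.1.dir p' hp'g q hqg
      exact ⟨s, hreg.2.1 p' hp'O s hsp', hsq⟩
    · intro hall
      obtain ⟨p, hp⟩ := hpo.ne
      obtain ⟨g, hg, hpg, hgB⟩ := hgen p hp
      exact (hRG g hgB).1 ((hfo g hg).2 ⟨p, hpg, hall p hp⟩)
  rw [key]
  exact hsep

end CAA
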