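import Pool.Agent.H9.CA.Tool
import Pool.Agent.H68.SF.LAll

/-!
# DU: `L_θ[a]` as an inner model of a model of height `θ`
-/

set_option linter.unusedVariables false

open Ordinal Order Set
open scoped ZFSet

namespace CAA

open SF

theorem du_empty_tr : (∅ : V).IsTransitive := fun x hx => absurd hx (ZFSet.notMem_empty x)

/-- a bound for the levels of the elements of `b` -/
theorem du_bound {M : V → Prop} (k : ZFm M) {a : V} (ha : M a) {b : V} (hb : M b)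
    (h : ∀ x ∈ b, ∃ α : Ordinal.{0}, M α.toZFSet ∧ x ∈ Lh ∅ a α) :
    ∃ ρ : Ordinal.{0}, M ρ.toZFSet ∧ b ⊆ Lh ∅ a ρ := by
  have hR : Dfb ZFm (fun _ w => IsOrd (w 0) ∧ w 1 ∈ Lh (w 2) (w 3) (w 0).rank) :=
    (Dfb.isOrd (Tm.var 0)).and (Dfb.mem (Tm.var 1)
      (Tm.at3 (F := fun _ x y z => Lh x y z.rank) SF.H68.aLHT (Tm.var 2) (Tm.var 3) (Tm.var 0)))
  obtain ⟨φ, hφ⟩ := hR
  have hv : In M (cons ∅ fun _ => a) := In.cons (fun _ => ha) k.mempty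
  obtain ⟨c, hc, hc2⟩ := k.coll φ (cons ∅ fun _ => a) b hv hb (by
    intro x hx
    obtain ⟨α, hα, hxα⟩ := h x hx
    refine ⟨α.toZFSet, hα, (hφ M k _ ((hv.cons (k.trans _ hb x hx)).cons hα)).2 ⟨⟨α, rfl⟩, ?_⟩⟩
    show x ∈ Lh ∅ a α.toZFSet.rank
    rw [Ordinal.rank_toZFSet]
    exact hxα)
  refine ⟨c.rank, (Tm.rkS (Tm.var 0)).1 M k (fun _ => c) fun _ => hc, fun x hx => ?_⟩
  obtain ⟨o, ho, hs⟩ := hc2 x hx
  have h1 := (hφ M k _ ((hv.cons (k.trans _ hb x hx)).cons (k.trans _ hc o ho))).1 hs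
  have h2 : x ∈ Lh ∅ a o.rank := h1.2
  exact Lh_mono (ZFSet.rank_lt_of_mem ho).le h2

theorem pf_DU : T_DU := by
  intro M a θ k ha hθ
  have hlim : IsSuccLimit θ := by
    rw [Order.isSuccLimit_iff]
    refine ⟨?_, ?_⟩
    · intro h0
      have h1 := (hθ ω).1 k.inf
      exact (h0.eq_bot ▸ h1 : ω < (⊥ : Ordinal.{0})).not_ge bot_le
    · rw [Order.isSuccPrelimit_iff_succ_lt]
      intro β hβ
      exact (hθ _).1 (k.msucc ((hθ β).2 hβ))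
  have hin : ∀ x ∈ LA a θ, M x := by
    intro x hx
    obtain ⟨β, hβ, hxβ⟩ := (mem_Lh_limit hlim).1 hx
    exact k.trans _ (mLh' SF.H68.aLHT k k.mempty ha ((hθ β).2 hβ)) x hxβ
  have hE : (fun x => ∃ α : Ordinal.{0}, M α.toZFSet ∧ x ∈ Lh ∅ a α) = (· ∈ LA a θ) := by
    funext x
    refine propext ⟨?_, fun hx => ?_⟩
    · rintro ⟨α, hα, hx⟩
      exact Lh_mono ((hθ α).1 hα).le hx
    · obtain ⟨β, hβ, hxβ⟩ := (mem_Lh_limit hlim).1 hx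
      exact ⟨β, (hθ β).2 hβ, hxβ⟩
  have hZ : ZFm (· ∈ LA a θ) := by
    rw [← hE]
    exact SF.H68.aLIN M k ∅ a k.mempty ha du_empty_tr
  have hord : ∀ α : Ordinal.{0}, α.toZFSet ∈ LA a θ ↔ α < θ := fun α =>
    ⟨fun h => (hθ α).1 (hin _ h), fun h => ord_mem_Lh du_empty_tr h⟩
  refine ⟨hlim, hin, hZ, hord, fun hsub => ?_⟩
  have haN : a ∈ LA a θ := by
    obtain ⟨ρ, hρ, hsubρ⟩ := du_bound k ha ha (fun x hx => by
      obtain ⟨β, hβ, hxβ⟩ := (mem_Lh_limit hlim).1 (hsub x hx)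
      exact ⟨β, (hθ β).2 hβ, hxβ⟩)
    have h1 : a ∩ Lh ∅ a ρ = a := by
      ext x
      rw [ZFSet.mem_inter]
      exact ⟨fun h => h.1, fun h => ⟨h, hsubρ h⟩⟩
    have h2 := pred_mem_Lh (a := ∅) (A := a) ((hθ ρ).1 hρ)
    rw [h1] at h2
    exact h2
  refine ⟨haN, ⟨hZ, fun x hx => ?_⟩⟩
  obtain ⟨β, hβ, hxβ⟩ := (mem_Lh_limit hlim).1 hx
  have hxs : x ⊆ Lh ∅ a β := fun y hy => Lh_isTransitive du_empty_tr β x hxβ hy
  have he : Enm ∅ ∅ := ⟨fun q hq => absurd hq (ZFSet.notMem_empty q),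
    fun x y z h => absurd h (ZFSet.notMem_empty _), fun y hy => absurd hy (ZFSet.notMem_empty y)⟩
  obtain ⟨g, hg, hge⟩ := SF.H68.aLEN (· ∈ LA a θ) hZ ∅ a ∅ hZ.mempty haN hZ.mempty du_empty_tr he
    β ((hord β).2 hβ)
  have hR : Dfb ZFm (fun _ w => snd (w 0) ∈ w 2) :=
    Dfb.mem (Tm.snd (Tm.var 0)) (Tm.var 2)
  have hg' : (g.sep fun q => snd q ∈ x) ∈ LA a θ :=
    (Tm.sep hR (Tm.var 0)).1 (· ∈ LA a θ) hZ (cons g fun _ => x) (In.cons (fun _ => hx) hg)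
  refine (SF.H68.aLEO (· ∈ LA a θ) hZ x hx).1 ⟨g.sep fun q => snd q ∈ x, hg', ?_, ?_, ?_⟩
  · intro q hq
    obtain ⟨hq1, hq2⟩ := ZFSet.mem_sep.1 hq
    obtain ⟨ξ, y, hy, rfl⟩ := hge.pr q hq1
    rw [snd_pair] at hq2
    exact ⟨ξ, y, hq2, rfl⟩
  · intro u y z hy hz
    exact hge.svl u y z (ZFSet.mem_sep.1 hy).1 (ZFSet.mem_sep.1 hz).1
  · intro y hy
    obtain ⟨ξ, hξ⟩ := hge.onto y (hxs hy)
    refine ⟨ξ, ZFSet.mem_sep.2 ⟨hξ, ?_⟩⟩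
    rw [snd_pair]
    exact hy

end CAA
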